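import Pool.Agent.Lib.H41F.W
import Pool.Agent.Lib.H91C.D
import Pool.Agent.Lib.H30P.Tab

/-!
# H41F, file E2: exactly two connected sides at the cut vertex

`e_two`: if `A` and `B` are connected in `F` and `v` has neighbours in both, then the complex of the edges between
`A` and `B` which miss `F` is acyclic in degree `n`, if the statement for two cycles holds in degree `n` for all
tables.
-/

set_option autoImplicit false
set_option linter.unusedSectionVars false

namespace H41F

open Finset H53P H98P H98Z H98M H98V H66N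

/-- the statement for two cycles in degree `n`, for all tables -/
def TwoN (n : ℕ) : Prop :=
  ∀ (V : Type) [Fintype V] [DecidableEq V] (T : Table V) (a b : ℕ → V) (p m : ℕ), H30P.Two T a p b m →
    H30P.Crn T a b p m → AcyN (crossT T) n (H30P.BE (crossT T) a b p m)

/-- the geometric facts hold for all tables -/
def GeoEx : Prop := ∀ (V : Type) [Fintype V] [DecidableEq V] (T : Table V), Geo (crossT T)

theorem twoC_of_twoN {n : ℕ} (hG : GeoEx) (h : TwoN n) : TwoC n := by
  intro V _ _ T v F LA LB hst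
  exact H91C.st2_acyN (H30P.sees_table T) (hG V T) (h V T)
    ⟨hst.pl, hst.nd, hst.na, hst.nb, hst.ca, hst.cb, hst.no, hst.sup⟩

theorem e_two {n : ℕ} (hX : TwinEx) (hG : TwoC n) {V : Type} [Fintype V] [DecidableEq V] (T : Table V)
    {v : V} {A B : Finset V} {F : Finset (Sym2 V)} (hpl : Plane (crossT T) F)
    (hsup : F ⊆ LW (insert v (A ∪ B))) (hno : ∀ a ∈ A, ∀ b ∈ B, s(a, b) ∉ F) (hA : Conn F A)
    (hB : Conn F B) (ha : ∃ a ∈ A, s(v, a) ∈ F) (hb : ∃ b ∈ B, s(v, b) ∈ F) (hva : v ∉ A)
    (hvb : v ∉ B) (hdj : Disjoint A B) :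
    AcyN (crossT T) n (Miss (crossT T) (br A B) F) := by
  obtain ⟨a, haA, hav⟩ := ha
  obtain ⟨b, hbB, hbv⟩ := hb
  have h1 : v ≠ a := fun h => hva (h ▸ haA)
  have h2 : v ≠ b := fun h => hvb (h ▸ hbB)
  have h3 : a ≠ b := fun h => disjoint_left.1 hdj haA (h ▸ hbB)
  have hce : ∀ c : V, s(v, c) ∈ F → ∀ e ∈ ce (v :: [c]), e ∈ F := by
    intro c hc e he
    rw [ce_cons, List.singleton_append, we, we, we, List.mem_cons, List.mem_singleton] at he
    rcases he with rfl | rfl
    · exact hc
    · rw [Sym2.eq_swap]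
      exact hc
  refine st_acyN hX hG _ V T v A B F [a] [b] rfl ⟨hpl, ?_, by simp, by simp, ?_, ?_, hdj, hva, hvb, hce a hav,
    hce b hbv, hno, hsup, ?_, ?_⟩
  · simp [h1, h2, h3]
  · intro c hc
    rw [List.mem_singleton] at hc
    exact hc ▸ haA
  · intro c hc
    rw [List.mem_singleton] at hc
    exact hc ▸ hbB
  · intro C hC hCA hne
    exact hA C hCA ⟨a, hC a (List.mem_singleton_self a)⟩ hne
  · intro C hC hCB hne
    exact hB C hCB ⟨b, hC b (List.mem_singleton_self b)⟩ hne

end H41F
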