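import Pool.Agent.Lib.H41F.B

/-!
# H41F, file A: a twin of the cut vertex joins two components

`Mrg F v y q ρ π`: `y`, `q` are consecutive neighbours of `v` in `F`, the twin of `v` is between them. `F2`: the
edges `v'y`, `v'q` are added. `stepa_be`: the bridging edges of `F2` are those of `F` and the edges `v'a` of `Y0`
(`va` misses `F` and is between `y` and `q`). `stepa_link`: the links of sets of new edges.
-/

set_option autoImplicit false
set_option linter.unusedSectionVars false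

namespace H41F

open H53P H30P Finset H98Z H98P

variable {V : Type*} [DecidableEq V]

/-- the data of a step -/
structure Mrg (F : Finset (Sym2 V)) (v y q : V) (ρ : V → ℝ) (π : ℝ) : Prop where
  yv : y ≠ v
  qv : q ≠ v
  vy : s(v, y) ∈ F
  vq : s(v, q) ∈ F
  hq : ρ q < π
  hy : π < ρ y
  gap : ∀ z, z ≠ v → s(v, z) ∈ F → ¬ (ρ q < ρ z ∧ ρ z < ρ y)

/-- the edge between old vertices -/
def mp (e : Sym2 V) : Sym2 (Option V) := e.map some

theorem mp_mk (a b : V) : mp s(a, b) = s(some a, some b) := rfl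

theorem mp_inj : Function.Injective (mp : Sym2 V → Sym2 (Option V)) :=
  Sym2.map.injective (Option.some_injective V)

/-- the new plane set -/
def F2 (F : Finset (Sym2 V)) (y q : V) : Finset (Sym2 (Option V)) :=
  F.image mp ∪ {s(none, some y), s(none, some q)}

theorem mem_F2 {F : Finset (Sym2 V)} {y q : V} {e : Sym2 (Option V)} :
    e ∈ F2 F y q ↔ (∃ f ∈ F, mp f = e) ∨ e = s(none, some y) ∨ e = s(none, some q) := by
  unfold F2
  rw [mem_union, mem_image, mem_insert, mem_singleton]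

section

variable {T : Table V} {T' : Table (Option V)} {v y q : V} {ρ : V → ℝ} {π : ℝ} {F : Finset (Sym2 V)}
  {cross : Sym2 V → Sym2 V → Prop} {cross' : Sym2 (Option V) → Sym2 (Option V) → Prop}

theorem mp_cross (h : Tw T T' v ρ π)
    (hS : ∀ a b c d, cross s(a, b) s(c, d) ↔ T.X a b c d = true)
    (hS' : ∀ a b c d, cross' s(a, b) s(c, d) ↔ T'.X a b c d = true) (e f : Sym2 V) :
    cross' (mp e) (mp f) ↔ cross e f := by
  induction e with
  | _ a b =>
    induction f with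
    | _ c d => rw [mp_mk, mp_mk, hS, hS', h.old]

/-- an old edge off `v` and an edge of the twin -/
theorem tw_off (h : Tw T T' v ρ π)
    (hS : ∀ a b c d, cross s(a, b) s(c, d) ↔ T.X a b c d = true)
    (hS' : ∀ a b c d, cross' s(a, b) s(c, d) ↔ T'.X a b c d = true) {a b z : V} (ha : a ≠ v)
    (hb : b ≠ v) (hz : z ≠ v) : cross' s(some a, some b) s(none, some z) ↔ cross s(a, b) s(v, z) := by
  rw [hS, hS', T'.xs4, h.par z a b hz ha hb, T.xs4]

/-- an old edge at `v` and an edge of the twin -/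
theorem tw_at (h : Tw T T' v ρ π)
    (hS' : ∀ a b c d, cross' s(a, b) s(c, d) ↔ T'.X a b c d = true) {d z : V} (hd : d ≠ v)
    (hz : z ≠ v) (hdz : d ≠ z) :
    cross' s(some v, some d) s(none, some z) ↔ H53P.btw π (ρ z) (ρ d) = true := by
  rw [hS', T'.xs4, h.near z d hz hd (Ne.symm hdz)]

/-- an edge of `F` and a new edge -/
theorem F2_new (h : Tw T T' v ρ π) (hs : Mrg F v y q ρ π)
    (hS : ∀ a b c d, cross s(a, b) s(c, d) ↔ T.X a b c d = true)
    (hS' : ∀ a b c d, cross' s(a, b) s(c, d) ↔ T'.X a b c d = true)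
    (hd : ∀ e ∈ F, ¬ e.IsDiag) (hF : Plane cross F) {e : Sym2 V} (he : e ∈ F) {z : V}
    (hz : z = y ∨ z = q) : ¬ cross' (mp e) s(none, some z) := by
  have hzv : z ≠ v := by
    rcases hz with rfl | rfl
    · exact hs.yv
    · exact hs.qv
  have hvz : s(v, z) ∈ F := by
    rcases hz with rfl | rfl
    · exact hs.vy
    · exact hs.vq
  have key : ∀ d, d ≠ v → s(v, d) ∈ F → ¬ cross' (mp s(v, d)) s(none, some z) := by
    intro d hdv hvd
    rw [mp_mk]
    by_cases hdz : d = z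
    · subst hdz
      rw [hS', T'.xs1, T'.xs2, X_self1]
      simp
    · rw [tw_at h hS' hdv hzv hdz]
      have h1 := hs.gap d hdv hvd
      have h2 := hs.hq
      have h3 := hs.hy
      rw [btw_no]
      · simp
      · intro h4
        rcases hz with rfl | rfl
        · exact h1 ⟨by linarith [h4.1], h4.2⟩
        · linarith [h4.1, h4.2]
      · intro h4
        rcases hz with rfl | rfl
        · linarith [h4.1, h4.2]
        · exact h1 ⟨h4.1, by linarith [h4.2]⟩
  have hnd := hd e he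
  induction e with
  | _ a b =>
    rw [Sym2.mk_isDiag_iff] at hnd
    by_cases ha : a = v
    · subst ha
      exact key b (Ne.symm hnd) he
    by_cases hb : b = v
    · subst hb
      rw [Sym2.eq_swap] at he ⊢
      exact key a ha he
    rw [mp_mk, tw_off h hS hS' ha hb hzv]
    exact hF _ he _ hvz

theorem plane_F2 (h : Tw T T' v ρ π) (hs : Mrg F v y q ρ π)
    (hS : ∀ a b c d, cross s(a, b) s(c, d) ↔ T.X a b c d = true)
    (hS' : ∀ a b c d, cross' s(a, b) s(c, d) ↔ T'.X a b c d = true)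
    (hd : ∀ e ∈ F, ¬ e.IsDiag) (hF : Plane cross F) : Plane cross' (F2 F y q) := by
  have hsy : ∀ e f, cross' e f → cross' f e := by
    intro e f hc
    induction e with
    | _ a b =>
      induction f with
      | _ c d =>
        rw [hS'] at hc ⊢
        rw [T'.xs4]
        exact hc
  have hadj : ∀ a b c, ¬ cross' s(a, b) s(a, c) := by
    intro a b c hc
    rw [hS', X_self1] at hc
    exact absurd hc (by simp)
  have hn := fun e he z hz => F2_new h hs hS hS' hd hF (e := e) he (z := z) hz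
  intro e he f hf
  rcases mem_F2.1 he with ⟨e0, he0, rfl⟩ | rfl | rfl <;> rcases mem_F2.1 hf with ⟨f0, hf0, rfl⟩ | rfl | rfl
  · rw [mp_cross h hS hS']
    exact hF e0 he0 f0 hf0
  · exact hn e0 he0 y (Or.inl rfl)
  · exact hn e0 he0 q (Or.inr rfl)
  · exact fun hc => hn f0 hf0 y (Or.inl rfl) (hsy _ _ hc)
  · exact hadj _ _ _
  · exact hadj _ _ _
  · exact fun hc => hn f0 hf0 q (Or.inr rfl) (hsy _ _ hc)
  · exact hadj _ _ _
  · exact hadj _ _ _

/-- the new bridging edges, as vertices of `A` -/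
noncomputable def A0 (cross : Sym2 V → Sym2 V → Prop) (F : Finset (Sym2 V)) (A : Finset V) (v y q : V)
    (ρ : V → ℝ) : Finset V :=
  @Finset.filter V (fun a => (∀ f ∈ F, ¬ cross s(v, a) f) ∧ ρ q < ρ a ∧ ρ a < ρ y) (Classical.decPred _) A

theorem mem_A0 {A : Finset V} {a : V} : a ∈ A0 cross F A v y q ρ ↔
    a ∈ A ∧ (∀ f ∈ F, ¬ cross s(v, a) f) ∧ ρ q < ρ a ∧ ρ a < ρ y :=
  @Finset.mem_filter V (fun a => (∀ f ∈ F, ¬ cross s(v, a) f) ∧ ρ q < ρ a ∧ ρ a < ρ y) (Classical.decPred _) A a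

/-- the edges of the twin to `A` which miss the new set -/
theorem tw_miss (h : Tw T T' v ρ π) (hs : Mrg F v y q ρ π)
    (hS : ∀ a b c d, cross s(a, b) s(c, d) ↔ T.X a b c d = true)
    (hS' : ∀ a b c d, cross' s(a, b) s(c, d) ↔ T'.X a b c d = true)
    (hinj : ∀ a b, a ≠ v → b ≠ v → ρ a = ρ b → a = b)
    (hd : ∀ e ∈ F, ¬ e.IsDiag) {A : Finset V} (hvA : v ∉ A) (hyA : y ∉ A)
    (hqA : q ∉ A) {a : V} (ha : a ∈ A) :
    (∀ f ∈ F2 F y q, ¬ cross' s(none, some a) f) ↔ a ∈ A0 cross F A v y q ρ := by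
  have hav : a ≠ v := fun h1 => hvA (h1 ▸ ha)
  have hay : a ≠ y := fun h1 => hyA (h1 ▸ ha)
  have haq : a ≠ q := fun h1 => hqA (h1 ▸ ha)
  rw [mem_A0]
  constructor
  · intro h1
    refine ⟨ha, ?_, ?_, ?_⟩
    · intro f hf hc
      have h2 := h1 _ (mem_F2.2 (Or.inl ⟨f, hf, rfl⟩))
      have h3 := hd f hf
      induction f with
      | _ c d =>
        rw [Sym2.mk_isDiag_iff] at h3
        rw [hS] at hc
        have h4 := T.ne _ _ _ _ hc
        apply h2
        rw [mp_mk, hS', h.par a c d hav (Ne.symm h4.2.2.1) (Ne.symm h4.2.2.2.1)]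
        exact hc
    · by_contra h2
      have h3 := h1 _ (mem_F2.2 (Or.inl ⟨s(v, q), hs.vq, rfl⟩))
      apply h3
      rw [mp_mk, hS', h.near a q hav hs.qv haq]
      refine btw_yes2 ?_ hs.hq
      exact lt_of_le_of_ne (not_lt.1 h2) fun h4 => haq (hinj a q hav hs.qv h4)
    · by_contra h2
      have h3 := h1 _ (mem_F2.2 (Or.inl ⟨s(v, y), hs.vy, rfl⟩))
      apply h3
      rw [mp_mk, hS', h.near a y hav hs.yv hay]
      refine btw_yes1 hs.hy ?_
      exact lt_of_le_of_ne (not_lt.1 h2) fun h4 => hay (hinj a y hav hs.yv h4.symm)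
  · rintro ⟨_, h1, h2, h3⟩ f hf hc
    rcases mem_F2.1 hf with ⟨f0, hf0, rfl⟩ | rfl | rfl
    · have h4 := hd f0 hf0
      have key : ∀ d, d ≠ v → s(v, d) ∈ F → ¬ cross' s(none, some a) (mp s(v, d)) := by
        intro d hdv hvd hc
        rw [mp_mk, hS'] at hc
        have had : a ≠ d := by
          rintro rfl
          rw [T'.xs1, T'.xs2, X_self1] at hc
          exact absurd hc (by simp)
        rw [h.near a d hav hdv had, btw_no] at hc
        · exact absurd hc (by simp)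
        · exact fun h5 => hs.gap d hdv hvd ⟨by linarith [h5.1, hs.hq], by linarith [h5.2]⟩
        · exact fun h5 => hs.gap d hdv hvd ⟨by linarith [h5.1], by linarith [h5.2, hs.hy]⟩
      induction f0 with
      | _ c d =>
        rw [Sym2.mk_isDiag_iff] at h4
        by_cases hcv : c = v
        · subst hcv
          exact key d (Ne.symm h4) hf0 hc
        by_cases hdv : d = v
        · subst hdv
          rw [Sym2.eq_swap (a := c)] at hf0 hc
          exact key c hcv hf0 hc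
        apply h1 _ hf0
        rw [mp_mk, hS', h.par a c d hav hcv hdv] at hc
        rw [hS]
        exact hc
    · rw [hS', X_self1] at hc
      exact absurd hc (by simp)
    · rw [hS', X_self1] at hc
      exact absurd hc (by simp)

/-- BRIDGING EDGES of the new set -/
theorem stepa_be [Fintype V] (h : Tw T T' v ρ π) (hs : Mrg F v y q ρ π)
    (hS : ∀ a b c d, cross s(a, b) s(c, d) ↔ T.X a b c d = true)
    (hS' : ∀ a b c d, cross' s(a, b) s(c, d) ↔ T'.X a b c d = true)
    (hinj : ∀ a b, a ≠ v → b ≠ v → ρ a = ρ b → a = b)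
    (hd : ∀ e ∈ F, ¬ e.IsDiag) {A B : Finset V} (hvA : v ∉ A) (hvB : v ∉ B) (hyA : y ∉ A)
    (hqA : q ∉ A) :
    Miss cross' (br (A.image some) (insert none (B.image some))) (F2 F y q) =
      (Miss cross (br A B) F).image mp ∪ (A0 cross F A v y q ρ).image fun a => s(none, some a) := by
  have old : ∀ a ∈ A, ∀ b ∈ B, (∀ f ∈ F2 F y q, ¬ cross' s(some a, some b) f) ↔ ∀ f ∈ F, ¬ cross s(a, b) f := by
    intro a ha b hb
    have hav : a ≠ v := fun h1 => hvA (h1 ▸ ha)
    have hbv : b ≠ v := fun h1 => hvB (h1 ▸ hb)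
    constructor
    · intro h1 f hf hc
      exact h1 _ (mem_F2.2 (Or.inl ⟨f, hf, rfl⟩)) ((mp_cross h hS hS' s(a, b) f).2 hc)
    · intro h1 f hf hc
      rcases mem_F2.1 hf with ⟨f0, hf0, rfl⟩ | rfl | rfl
      · exact h1 f0 hf0 ((mp_cross h hS hS' s(a, b) f0).1 hc)
      · exact h1 _ hs.vy ((tw_off h hS hS' hav hbv hs.yv).1 hc)
      · exact h1 _ hs.vq ((tw_off h hS hS' hav hbv hs.qv).1 hc)
  ext e
  rw [mem_union, mem_image, mem_image, mem_miss, mem_br]
  constructor
  · rintro ⟨⟨a', ha', b', hb', rfl⟩, hm⟩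
    obtain ⟨a, ha, rfl⟩ := mem_image.1 ha'
    rcases mem_insert.1 hb' with rfl | h2
    · right
      refine ⟨a, (tw_miss h hs hS hS' hinj hd hvA hyA hqA ha).1 ?_, Sym2.eq_swap⟩
      rw [Sym2.eq_swap]
      exact hm
    · obtain ⟨b, hb, rfl⟩ := mem_image.1 h2
      left
      exact ⟨s(a, b), mem_miss.2 ⟨mem_br.2 ⟨a, ha, b, hb, rfl⟩, (old a ha b hb).1 hm⟩, rfl⟩
  · rintro (⟨e0, he0, rfl⟩ | ⟨a, ha, rfl⟩)
    · rw [mem_miss, mem_br] at he0
      obtain ⟨⟨a, ha, b, hb, rfl⟩, hm⟩ := he0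
      exact ⟨⟨some a, mem_image_of_mem _ ha, some b, mem_insert_of_mem (mem_image_of_mem _ hb), rfl⟩,
        (old a ha b hb).2 hm⟩
    · have haA := (mem_A0.1 ha).1
      exact ⟨⟨some a, mem_image_of_mem _ haA, none, mem_insert_self _ _, Sym2.eq_swap⟩,
        (tw_miss h hs hS hS' hinj hd hvA hyA hqA haA).2 ha⟩

/-- the links of sets of new edges -/
theorem stepa_link [Fintype V] (h : Tw T T' v ρ π)
    (hS : ∀ a b c d, cross s(a, b) s(c, d) ↔ T.X a b c d = true)
    (hS' : ∀ a b c d, cross' s(a, b) s(c, d) ↔ T'.X a b c d = true)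
    {A B : Finset V} (hvA : v ∉ A) (hvB : v ∉ B) {A1 : Finset V} (hA1 : v ∉ A1) :
    Miss cross' ((Miss cross (br A B) F).image mp) (A1.image fun a => s(none, some a)) =
      (Miss cross (br A B) (F ∪ A1.image fun a => s(v, a))).image mp := by
  have key : ∀ a ∈ A, ∀ b ∈ B, ∀ z ∈ A1, cross' s(some a, some b) s(none, some z) ↔ cross s(a, b) s(v, z) :=
    fun a ha b hb z hz => tw_off h hS hS' (fun h1 => hvA (h1 ▸ ha)) (fun h1 => hvB (h1 ▸ hb))
      fun h1 => hA1 (h1 ▸ hz)
  ext e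
  rw [mem_miss, mem_image, mem_image]
  constructor
  · rintro ⟨⟨e0, he0, rfl⟩, hm⟩
    rw [mem_miss, mem_br] at he0
    obtain ⟨⟨a, ha, b, hb, rfl⟩, hm0⟩ := he0
    refine ⟨s(a, b), mem_miss.2 ⟨mem_br.2 ⟨a, ha, b, hb, rfl⟩, fun f hf hc => ?_⟩, rfl⟩
    rcases mem_union.1 hf with h1 | h1
    · exact hm0 f h1 hc
    · obtain ⟨z, hz, rfl⟩ := mem_image.1 h1
      exact hm _ (mem_image_of_mem _ hz) ((key a ha b hb z hz).2 hc)
  · rintro ⟨e0, he0, rfl⟩
    rw [mem_miss, mem_br] at he0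
    obtain ⟨⟨a, ha, b, hb, rfl⟩, hm⟩ := he0
    refine ⟨⟨s(a, b), mem_miss.2 ⟨mem_br.2 ⟨a, ha, b, hb, rfl⟩, fun f hf =>
      hm f (mem_union_left _ hf)⟩, rfl⟩, fun f hf hc => ?_⟩
    obtain ⟨z, hz, rfl⟩ := mem_image.1 hf
    exact hm _ (mem_union_right _ (mem_image_of_mem _ hz)) ((key a ha b hb z hz).1 hc)

end

end H41F
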