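import Pool.Agent.Lib.H41F.Tw

/-!
# H41F, file B: a new vertex `y` on the walk, next to `x`

`Stp F x y q ρ π`: `x` has the neighbour `q` on the walk, `xy ∈ F`; the twin is between `y` and `q`. `F1`: the
edges `xz` with `z` strictly between `y` and `q` move to the twin, `x'y` and `x'q` are added. `stepb_be`: the
bridging edges of `F1` are the representatives of the bridging edges of `F`.
-/

set_option autoImplicit false
set_option linter.unusedSectionVars false

namespace H41F

open H53P H30P Finset H98Z H98P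

variable {V : Type*} [DecidableEq V]

theorem btw_iff {a b c : ℝ} : H53P.btw a b c = true ↔ (a < c ∧ c < b) ∨ (b < c ∧ c < a) := by
  unfold H53P.btw
  rw [Bool.or_eq_true, decide_eq_true_iff, decide_eq_true_iff]

/-- the data of a step -/
structure Stp (F : Finset (Sym2 V)) (x y q : V) (ρ : V → ℝ) (π : ℝ) : Prop where
  yx : y ≠ x
  qx : q ≠ x
  xy : s(x, y) ∈ F
  xq : s(x, q) ∈ F
  inj : ∀ a b, a ≠ x → b ≠ x → ρ a = ρ b → a = b
  mid : H53P.btw (ρ y) (ρ q) π = true

/-- strictly between `y` and `q` -/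
noncomputable def Sb (y q : V) (ρ : V → ℝ) (z : V) : Bool := H53P.btw (ρ y) (ρ q) (ρ z)

/-- the new plane set -/
noncomputable def F1 (F : Finset (Sym2 V)) (x y q : V) (ρ : V → ℝ) : Finset (Sym2 (Option V)) :=
  F.image (rep x (Sb y q ρ)) ∪ {s(none, some y), s(none, some q)}

theorem mem_F1 {F : Finset (Sym2 V)} {x y q : V} {ρ : V → ℝ} {e : Sym2 (Option V)} :
    e ∈ F1 F x y q ρ ↔ (∃ f ∈ F, rep x (Sb y q ρ) f = e) ∨ e = s(none, some y) ∨ e = s(none, some q) := by
  unfold F1
  rw [mem_union, mem_image, mem_insert, mem_singleton]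

section

variable {T : Table V} {T' : Table (Option V)} {x y q : V} {ρ : V → ℝ} {π : ℝ} {F : Finset (Sym2 V)}
  {cross : Sym2 V → Sym2 V → Prop} {cross' : Sym2 (Option V) → Sym2 (Option V) → Prop}

theorem Stp.gap (hs : Stp F x y q ρ π) (b d : V) (h1 : Sb y q ρ b = true ∨ b = y ∨ b = q)
    (h2 : Sb y q ρ d = false) : H53P.btw π (ρ b) (ρ d) = false := by
  have h3 := hs.mid
  rw [btw_iff] at h3
  unfold Sb at h1 h2
  have h4 : ¬ ((ρ y < ρ d ∧ ρ d < ρ q) ∨ (ρ q < ρ d ∧ ρ d < ρ y)) := by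
    rw [← btw_iff, h2]
    simp
  have h5 : (ρ y ≤ ρ b ∧ ρ b ≤ ρ q) ∨ (ρ q ≤ ρ b ∧ ρ b ≤ ρ y) := by
    rcases h1 with h1 | rfl | rfl
    · rw [btw_iff] at h1
      rcases h1 with h1 | h1
      · exact Or.inl ⟨h1.1.le, h1.2.le⟩
      · exact Or.inr ⟨h1.1.le, h1.2.le⟩
    · rcases h3 with h3 | h3
      · exact Or.inl ⟨le_refl _, by linarith [h3.1, h3.2]⟩
      · exact Or.inr ⟨by linarith [h3.1, h3.2], le_refl _⟩
    · rcases h3 with h3 | h3
      · exact Or.inl ⟨by linarith [h3.1, h3.2], le_refl _⟩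
      · exact Or.inr ⟨le_refl _, by linarith [h3.1, h3.2]⟩
  apply btw_no
  · intro h6
    apply h4
    rcases h3 with h3 | h3 <;> rcases h5 with h5 | h5
    · exact Or.inl ⟨by linarith [h3.1, h6.1], by linarith [h5.2, h6.2]⟩
    · exfalso; linarith [h3.1, h3.2, h5.1, h5.2, h6.1, h6.2]
    · exfalso; linarith [h3.1, h3.2, h5.1, h5.2, h6.1, h6.2]
    · exact Or.inr ⟨by linarith [h3.1, h6.1], by linarith [h5.2, h6.2]⟩
  · intro h6
    apply h4
    rcases h3 with h3 | h3 <;> rcases h5 with h5 | h5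
    · exact Or.inl ⟨by linarith [h5.1, h6.1], by linarith [h3.2, h6.2]⟩
    · exfalso; linarith [h3.1, h3.2, h5.1, h5.2, h6.1, h6.2]
    · exfalso; linarith [h3.1, h3.2, h5.1, h5.2, h6.1, h6.2]
    · exact Or.inr ⟨by linarith [h5.1, h6.1], by linarith [h3.2, h6.2]⟩

theorem Stp.hI (hs : Stp F x y q ρ π) : ∀ b d, b ≠ x → d ≠ x → b ≠ d → Sb y q ρ b = true →
    Sb y q ρ d = false → H53P.btw π (ρ b) (ρ d) = false :=
  fun b d _ _ _ h1 h2 => hs.gap b d (Or.inl h1) h2

theorem Stp.sy (_hs : Stp F x y q ρ π) : Sb y q ρ y = false := by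
  unfold Sb
  exact btw_no (fun h => lt_irrefl _ h.1) (fun h => lt_irrefl _ h.2)

theorem Stp.sq (_hs : Stp F x y q ρ π) : Sb y q ρ q = false := by
  unfold Sb
  exact btw_no (fun h => lt_irrefl _ h.2) (fun h => lt_irrefl _ h.1)

theorem Stp.xz (hs : Stp F x y q ρ π) {z : V} (hz : z = y ∨ z = q) : z ≠ x ∧ s(x, z) ∈ F := by
  rcases hz with rfl | rfl
  · exact ⟨hs.yx, hs.xy⟩
  · exact ⟨hs.qx, hs.xq⟩

/-- a representative and a new edge -/
theorem new_z (h : Tw T T' x ρ π) (hs : Stp F x y q ρ π)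
    (hS : ∀ a b c d, cross s(a, b) s(c, d) ↔ T.X a b c d = true)
    (hS' : ∀ a b c d, cross' s(a, b) s(c, d) ↔ T'.X a b c d = true) {z : V} (hz : z = y ∨ z = q)
    {e : Sym2 V} (he : ¬ e.IsDiag) :
    cross' (rep x (Sb y q ρ) e) s(none, some z) ↔ cross e s(x, z) := by
  obtain ⟨hzx, hxz⟩ := hs.xz hz
  have key : ∀ a, a ≠ x → (cross' (rep x (Sb y q ρ) s(x, a)) s(none, some z) ↔ cross s(x, a) s(x, z)) := by
    intro a ha
    rw [hS, X_self1]
    refine iff_of_false ?_ (by simp)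
    cases h1 : Sb y q ρ a
    · rw [rep_out ha h1, hS', T'.xs4]
      by_cases haz : a = z
      · subst haz
        rw [T'.xs1, T'.xs2, X_self1]
        simp
      · rw [h.near z a hzx ha (Ne.symm haz), hs.gap z a (Or.inr hz) h1]
        simp
    · rw [rep_in ha h1, hS', X_self1]
      simp
  induction e with
  | _ a b =>
    rw [Sym2.mk_isDiag_iff] at he
    by_cases ha : a = x
    · subst ha
      exact key b (Ne.symm he)
    by_cases hb : b = x
    · subst hb
      rw [Sym2.eq_swap]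
      exact key a ha
    rw [rep_off _ ha hb, hS, hS', T'.xs4, h.par z a b hzx ha hb, T.xs4]

/-- an edge of `T` misses `F` if and only if its representative misses `F1` -/
theorem miss_F1 (h : Tw T T' x ρ π) (hs : Stp F x y q ρ π)
    (hS : ∀ a b c d, cross s(a, b) s(c, d) ↔ T.X a b c d = true)
    (hS' : ∀ a b c d, cross' s(a, b) s(c, d) ↔ T'.X a b c d = true) {e : Sym2 V} (he : ¬ e.IsDiag) :
    (∀ f ∈ F1 F x y q ρ, ¬ cross' (rep x (Sb y q ρ) e) f) ↔ ∀ f ∈ F, ¬ cross e f := by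
  constructor
  · intro h1 f hf h2
    exact h1 _ (mem_F1.2 (Or.inl ⟨f, hf, rfl⟩)) ((rep_cross h hs.hI hS hS' e f).2 h2)
  · intro h1 f hf h2
    rcases mem_F1.1 hf with ⟨f0, hf0, rfl⟩ | rfl | rfl
    · exact h1 f0 hf0 ((rep_cross h hs.hI hS hS' e f0).1 h2)
    · exact h1 _ hs.xy ((new_z h hs hS hS' (Or.inl rfl) he).1 h2)
    · exact h1 _ hs.xq ((new_z h hs hS hS' (Or.inr rfl) he).1 h2)

/-- the new set is plane -/
theorem plane_F1 (h : Tw T T' x ρ π) (hs : Stp F x y q ρ π)
    (hS : ∀ a b c d, cross s(a, b) s(c, d) ↔ T.X a b c d = true)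
    (hS' : ∀ a b c d, cross' s(a, b) s(c, d) ↔ T'.X a b c d = true)
    (hd : ∀ e ∈ F, ¬ e.IsDiag) (hF : Plane cross F) : Plane cross' (F1 F x y q ρ) := by
  have hsy : ∀ e f, cross' e f → cross' f e := by
    intro e f hc
    induction e with
    | _ a b =>
      induction f with
      | _ c d =>
        rw [hS'] at hc ⊢
        rw [T'.xs4]
        exact hc
  have hadj : ∀ a b c, ¬ cross' s(a, b) s(a, c) := by
    intro a b c hc
    rw [hS', X_self1] at hc
    exact absurd hc (by simp)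
  have h0 : ∀ e ∈ F, ∀ f ∈ F1 F x y q ρ, ¬ cross' (rep x (Sb y q ρ) e) f := fun e he =>
    (miss_F1 h hs hS hS' (hd e he)).2 (hF e he)
  intro e he f hf
  rcases mem_F1.1 he with ⟨e0, he0, rfl⟩ | rfl | rfl
  · exact h0 e0 he0 f hf
  · rcases mem_F1.1 hf with ⟨f0, hf0, rfl⟩ | rfl | rfl
    · exact fun hc => h0 f0 hf0 _ he (hsy _ _ hc)
    · exact hadj _ _ _
    · exact hadj _ _ _
  · rcases mem_F1.1 hf with ⟨f0, hf0, rfl⟩ | rfl | rfl
    · exact fun hc => h0 f0 hf0 _ he (hsy _ _ hc)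
    · exact hadj _ _ _
    · exact hadj _ _ _

/-- the edges of the new set -/
theorem nd_F1 (hd : ∀ e ∈ F, ¬ e.IsDiag) : ∀ e ∈ F1 F x y q ρ, ¬ e.IsDiag := by
  intro e he
  rcases mem_F1.1 he with ⟨e0, he0, rfl⟩ | rfl | rfl
  · have h1 := hd e0 he0
    induction e0 with
    | _ a b =>
      rw [Sym2.mk_isDiag_iff] at h1
      rw [rep_mk, Sym2.mk_isDiag_iff]
      intro h2
      apply h1
      rw [← pr_hd x (Sb y q ρ) a b, h2, pr_hd]
  · rw [Sym2.mk_isDiag_iff]
    simp
  · rw [Sym2.mk_isDiag_iff]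
    simp

/-- BRIDGING EDGES: exactly one representative misses the new set -/
theorem stepb_be [Fintype V] (h : Tw T T' x ρ π) (hs : Stp F x y q ρ π)
    (hS : ∀ a b c d, cross s(a, b) s(c, d) ↔ T.X a b c d = true)
    (hS' : ∀ a b c d, cross' s(a, b) s(c, d) ↔ T'.X a b c d = true)
    {A B : Finset V} (hAB : Disjoint A B) (hxB : x ∈ B) (hyA : y ∉ A) (hqA : q ∉ A) :
    Miss cross' (br (A.image some) (insert none (B.image some))) (F1 F x y q ρ) =
      (Miss cross (br A B) F).image (rep x (Sb y q ρ)) := by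
  have hxA : x ∉ A := fun h1 => disjoint_left.1 hAB h1 hxB
  have hne : ∀ a ∈ A, a ≠ x := fun a ha h1 => hxA (h1 ▸ ha)
  have hmid := btw_iff.1 hs.mid
  ext e
  rw [mem_image]
  constructor
  · intro he
    rw [mem_miss, mem_br] at he
    obtain ⟨⟨a', ha', b', hb', rfl⟩, hm⟩ := he
    obtain ⟨a, ha, rfl⟩ := mem_image.1 ha'
    have hax := hne a ha
    have hay : a ≠ y := fun h3 => hyA (h3 ▸ ha)
    have haq : a ≠ q := fun h3 => hqA (h3 ▸ ha)
    have hpa := h.pi a hax
    have hya : ρ a ≠ ρ y := fun h3 => hay (hs.inj a y hax hs.yx h3)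
    have hqa : ρ a ≠ ρ q := fun h3 => haq (hs.inj a q hax hs.qx h3)
    have fin : ∀ b ∈ B, rep x (Sb y q ρ) s(a, b) = s(some a, b') → ∃ e ∈ Miss cross (br A B) F,
        rep x (Sb y q ρ) e = s(some a, b') := by
      intro b hb hr
      refine ⟨s(a, b), mem_miss.2 ⟨mem_br.2 ⟨a, ha, b, hb, rfl⟩, ?_⟩, hr⟩
      refine (miss_F1 h hs hS hS' ?_).1 (by rw [hr]; exact hm)
      rw [Sym2.mk_isDiag_iff]
      exact fun h1 => disjoint_left.1 hAB ha (h1 ▸ hb)
    by_cases h1 : b' = none
    · subst h1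
      -- the end is the twin
      cases h2 : Sb y q ρ a
      · exfalso
        have hold : ∀ z, (z = y ∨ z = q) → H53P.btw π (ρ a) (ρ z) = true → False := by
          intro z hz hb'
          obtain ⟨hzx, hxz⟩ := hs.xz hz
          have haz : a ≠ z := by
            rcases hz with rfl | rfl
            · exact hay
            · exact haq
          have h3 : s(some x, some z) ∈ F1 F x y q ρ := by
            refine mem_F1.2 (Or.inl ⟨s(x, z), hxz, ?_⟩)
            rw [rep_out hzx]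
            rcases hz with rfl | rfl
            · exact hs.sy
            · exact hs.sq
          refine hm _ h3 ?_
          rw [Sym2.eq_swap, hS', h.near a z hax hzx haz]
          exact hb'
        have h4 : ¬ ((ρ y < ρ a ∧ ρ a < ρ q) ∨ (ρ q < ρ a ∧ ρ a < ρ y)) := by
          rw [← btw_iff]
          unfold Sb at h2
          rw [h2]
          simp
        rcases lt_or_gt_of_ne hya with h5 | h5 <;> rcases lt_or_gt_of_ne hqa with h6 | h6
        · rcases hmid with h7 | h7
          · exact hold y (Or.inl rfl) (btw_iff.2 (Or.inr ⟨h5, h7.1⟩))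
          · exact hold q (Or.inr rfl) (btw_iff.2 (Or.inr ⟨h6, h7.1⟩))
        · exact h4 (Or.inr ⟨h6, h5⟩)
        · exact h4 (Or.inl ⟨h5, h6⟩)
        · rcases hmid with h7 | h7
          · exact hold q (Or.inr rfl) (btw_iff.2 (Or.inl ⟨h7.2, h6⟩))
          · exact hold y (Or.inl rfl) (btw_iff.2 (Or.inl ⟨h7.2, h5⟩))
      · refine fin x hxB ?_
        rw [Sym2.eq_swap, rep_in hax h2, Sym2.eq_swap]
    · obtain ⟨b, rfl⟩ := Option.ne_none_iff_exists'.1 h1
      have hb : b ∈ B := by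
        rcases mem_insert.1 hb' with h2 | h2
        · exact absurd h2 (by simp)
        · obtain ⟨b0, hb0, h3⟩ := mem_image.1 h2
          exact Option.some.inj h3 ▸ hb0
      by_cases hbx : b = x
      · subst hbx
        cases h2 : Sb y q ρ a
        · refine fin b hb ?_
          rw [Sym2.eq_swap, rep_out hax h2, Sym2.eq_swap]
        · exfalso
          have hnew : ∀ z, (z = y ∨ z = q) → H53P.btw π (ρ z) (ρ a) = true → False := by
            intro z hz hb'
            obtain ⟨hzx, hxz⟩ := hs.xz hz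
            have haz : a ≠ z := by
              rcases hz with rfl | rfl
              · exact hay
              · exact haq
            have h3 : s(none, some z) ∈ F1 F b y q ρ := by
              rcases hz with rfl | rfl
              · exact mem_F1.2 (Or.inr (Or.inl rfl))
              · exact mem_F1.2 (Or.inr (Or.inr rfl))
            refine hm _ h3 ?_
            rw [hS', T'.xs1, T'.xs4, h.near z a hzx hax (Ne.symm haz)]
            exact hb'
          have h4 : (ρ y < ρ a ∧ ρ a < ρ q) ∨ (ρ q < ρ a ∧ ρ a < ρ y) := by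
            rw [← btw_iff]
            exact h2
          rcases lt_or_gt_of_ne hpa with h5 | h5 <;> rcases h4 with h6 | h6
          · exact hnew y (Or.inl rfl) (btw_iff.2 (Or.inr ⟨h6.1, h5⟩))
          · exact hnew q (Or.inr rfl) (btw_iff.2 (Or.inr ⟨h6.1, h5⟩))
          · exact hnew q (Or.inr rfl) (btw_iff.2 (Or.inl ⟨h5, h6.2⟩))
          · exact hnew y (Or.inl rfl) (btw_iff.2 (Or.inl ⟨h5, h6.2⟩))
      · exact fin b hb (rep_off _ hax hbx)
  · rintro ⟨e0, he0, rfl⟩
    rw [mem_miss, mem_br] at he0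
    obtain ⟨⟨a, ha, b, hb, rfl⟩, hm⟩ := he0
    have hab : a ≠ b := fun h1 => disjoint_left.1 hAB ha (h1 ▸ hb)
    rw [mem_miss]
    refine ⟨?_, (miss_F1 h hs hS hS' (by rw [Sym2.mk_isDiag_iff]; exact hab)).2 hm⟩
    rw [rep_mk, mem_br, hd_ne (hne a ha)]
    refine ⟨some a, mem_image_of_mem _ ha, hd x (Sb y q ρ) b a, ?_, rfl⟩
    by_cases hbx : b = x
    · subst hbx
      cases h2 : Sb y q ρ a
      · rw [hd_out h2]
        exact mem_insert_of_mem (mem_image_of_mem _ hb)
      · rw [hd_in h2]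
        exact mem_insert_self _ _
    · rw [hd_ne hbx]
      exact mem_insert_of_mem (mem_image_of_mem _ hb)

end

end H41F
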