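import Pool.Agent.Lib.H41F.Tx
import Pool.Agent.Lib.H98M.MC0
import Pool.Agent.Lib.H63L.P0
import Pool.Agent.Lib.H66N.N2

/-!
# H41F, file S: the state of step (b)

`St T v A B F LA LB`: a plane set `F` of edges of `{v} ∪ A ∪ B`, no edge between `A` and `B`, closed walks
`v :: LA` and `v :: LB` in `F`, and everything can be reached from the walks. `st_twin`: the state after a step.
-/

set_option autoImplicit false
set_option linter.unusedSectionVars false

namespace H41F

open Finset H53P H98P H98Z H98M H98V H66N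

/-- the state -/
structure St {V : Type} [Fintype V] [DecidableEq V] (T : Table V) (v : V) (A B : Finset V)
    (F : Finset (Sym2 V)) (LA LB : List V) : Prop where
  pl : Plane (crossT T) F
  nd : (v :: (LA ++ LB)).Nodup
  na : LA ≠ []
  nb : LB ≠ []
  sa : ∀ a ∈ LA, a ∈ A
  sb : ∀ b ∈ LB, b ∈ B
  dj : Disjoint A B
  va : v ∉ A
  vb : v ∉ B
  ca : ∀ e ∈ ce (v :: LA), e ∈ F
  cb : ∀ e ∈ ce (v :: LB), e ∈ F
  no : ∀ a ∈ A, ∀ b ∈ B, s(a, b) ∉ F
  sup : F ⊆ LW (insert v (A ∪ B))
  conA : ∀ C, (∀ a ∈ LA, a ∈ C) → C ⊆ A → C ≠ A → ∃ c ∈ C, ∃ d ∈ A \ C, s(c, d) ∈ F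
  conB : ∀ C, (∀ b ∈ LB, b ∈ C) → C ⊆ B → C ≠ B → ∃ c ∈ C, ∃ d ∈ B \ C, s(c, d) ∈ F

theorem br_swap {V : Type*} [Fintype V] [DecidableEq V] (A B : Finset V) : br A B = br B A := by
  ext e
  rw [mem_br, mem_br]
  constructor
  · rintro ⟨a, ha, b, hb, rfl⟩
    exact ⟨b, hb, a, ha, Sym2.eq_swap⟩
  · rintro ⟨a, ha, b, hb, rfl⟩
    exact ⟨b, hb, a, ha, Sym2.eq_swap⟩

theorem perm_mid {α : Type*} (v : α) (l l' : List α) : (v :: (l ++ l')).Nodup → (v :: (l' ++ l)).Nodup := by
  intro h
  refine (List.Perm.nodup_iff ?_).1 h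
  exact List.Perm.cons v List.perm_append_comm

theorem St.swap {V : Type} [Fintype V] [DecidableEq V] {T : Table V} {v : V} {A B : Finset V}
    {F : Finset (Sym2 V)} {LA LB : List V} (h : St T v A B F LA LB) : St T v B A F LB LA where
  pl := h.pl
  nd := perm_mid _ _ _ h.nd
  na := h.nb
  nb := h.na
  sa := h.sb
  sb := h.sa
  dj := h.dj.symm
  va := h.vb
  vb := h.va
  ca := h.cb
  cb := h.ca
  no a ha b hb := by
    rw [Sym2.eq_swap]
    exact h.no b hb a ha
  sup := by
    rw [union_comm]
    exact h.sup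
  conA := h.conB
  conB := h.conA

section lists

variable {V : Type} [Fintype V] [DecidableEq V]

theorem we_map {W : Type} [DecidableEq W] [Fintype W] (f : V → W) : ∀ l : List V,
    we (l.map f) = (we l).map (Sym2.map f)
  | [] => rfl
  | [_] => rfl
  | a :: b :: l => by
    have h := we_map f (b :: l)
    rw [List.map_cons] at h
    rw [List.map_cons, List.map_cons, we, we, List.map_cons, h, Sym2.map_mk]

theorem we_split (a : V) : ∀ (l l' : List V), we (l ++ a :: l') = we (l ++ [a]) ++ we (a :: l')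
  | [], l' => by
    cases l' with
    | nil => rfl
    | cons b l' => rfl
  | [b], l' => rfl
  | b :: c :: l, l' => by
    have h := we_split a (c :: l) l'
    rw [List.cons_append] at h
    show s(b, c) :: we (c :: (l ++ a :: l')) = _
    rw [h]
    rfl

theorem ce_cons (v : V) (l : List V) : ce (v :: l) = we (v :: (l ++ [v])) := rfl

end lists

theorem crossT_iff {V : Type} (T : Table V) : ∀ a b c d, crossT T s(a, b) s(c, d) ↔ T.X a b c d = true :=
  fun a b c d => crossT_mk T a b c d

section step

variable {V : Type} [Fintype V] [DecidableEq V] {T : Table V} {v : V} {A B : Finset V}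
  {F : Finset (Sym2 V)} {LA L1 L2 R R' : List V} {x y q p : V} {ρ : V → ℝ} {π : ℝ}
  {T' : Table (Option V)}

theorem St.nd' {LB : List V} (h : St T v A B F LA LB) : ∀ e ∈ F, ¬ e.IsDiag := by
  intro e he
  have h1 := h.sup he
  induction e with
  | _ a b =>
    rw [Sym2.mk_isDiag_iff]
    exact (mem_LW.1 h1).2.2

/-- the new state -/
theorem st_twin (h : St T v A B F LA (L1 ++ x :: L2)) (hy : y ∈ B) (hyL : y ∉ L1 ++ x :: L2)
    (hxy : s(x, y) ∈ F) (hq : L2 ++ [v] = q :: R) (hp : v :: L1 = R' ++ [p])
    (hinj : ∀ a b, a ≠ x → b ≠ x → ρ a = ρ b → a = b)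
    (hm : ∀ z, z ≠ x → z ≠ p → ρ p < ρ z) (hmid : H53P.btw (ρ y) (ρ q) π = true)
    (hT : Tw T T' x ρ π) :
    Stp F x y q ρ π ∧ St T' (some v) (A.image some) (insert none (B.image some)) (F1 F x y q ρ) (LA.map some)
      (L1.map some ++ some x :: some y :: none :: L2.map some) := by
  have hxB : x ∈ B := h.sb x (by simp)
  have hxv : x ≠ v := fun h1 => h.vb (h1 ▸ hxB)
  have hyv : y ≠ v := fun h1 => h.vb (h1 ▸ hy)
  have hyx : y ≠ x := fun h1 => hyL (by rw [h1]; simp)
  have hxA : x ∉ A := fun h1 => disjoint_left.1 h.dj h1 hxB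
  have hyA : y ∉ A := fun h1 => disjoint_left.1 h.dj h1 hy
  have hnd := h.nd
  have hndB : (v :: (L1 ++ x :: L2)).Nodup := by
    refine hnd.sublist ?_
    exact List.Sublist.cons_cons v (List.sublist_append_right _ _)
  have hxL1 : x ∉ v :: L1 := by
    intro h1
    have h2 : (v :: L1 ++ x :: L2).Nodup := hndB
    rw [List.nodup_append] at h2
    exact h2.2.2 x h1 x List.mem_cons_self rfl
  have hxL2 : x ∉ L2 ++ [v] := by
    intro h1
    rw [List.mem_append, List.mem_singleton] at h1
    rcases h1 with h1 | h1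
    · have h2 : (v :: L1 ++ x :: L2).Nodup := hndB
      rw [List.nodup_append] at h2
      exact (List.nodup_cons.1 h2.2.1).1 h1
    · exact hxv h1
  have hce : ce (v :: (L1 ++ x :: L2)) = we (v :: L1 ++ [x]) ++ we (x :: (L2 ++ [v])) := by
    rw [ce_cons, ← we_split]
    congr 1
    simp
  have hqm : q ∈ L2 ++ [v] := by rw [hq]; simp
  have hqx : q ≠ x := fun h1 => hxL2 (h1 ▸ hqm)
  have hqBv : q ∈ B ∨ q = v := by
    rw [List.mem_append, List.mem_singleton] at hqm
    rcases hqm with h1 | h1
    · exact Or.inl (h.sb q (by simp [h1]))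
    · exact Or.inr h1
  have hqA : q ∉ A := by
    rcases hqBv with h1 | h1
    · exact fun h2 => disjoint_left.1 h.dj h2 h1
    · exact fun h2 => h.va (h1 ▸ h2)
  have hpm : p ∈ v :: L1 := by rw [hp]; simp
  have hpx : p ≠ x := fun h1 => hxL1 (h1 ▸ hpm)
  have hxq : s(x, q) ∈ F := by
    refine h.cb _ ?_
    rw [hce, hq, we]
    simp
  have hxp : s(x, p) ∈ F := by
    refine h.cb _ ?_
    rw [hce, hp, List.append_assoc, List.singleton_append, we_split, we, we, Sym2.eq_swap]
    simp
  have hs : Stp F x y q ρ π := ⟨hyx, hqx, hxy, hxq, hinj, hmid⟩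
  have hSp : Sb y q ρ p = false := by
    unfold Sb
    have hle : ∀ z, z ≠ x → ρ p ≤ ρ z := by
      intro z hz
      by_cases h1 : z = p
      · rw [h1]
      · exact (hm z hz h1).le
    exact btw_no (fun h1 => absurd (hle y hyx) (not_le.2 h1.1)) (fun h1 => absurd (hle q hqx) (not_le.2 h1.1))
  have hndF := h.nd'
  -- membership of the representatives
  have hrep : ∀ c d, s(c, d) ∈ F → c ≠ x → d ≠ x → s(some c, some d) ∈ F1 F x y q ρ := by
    intro c d hcd hc hd
    exact mem_F1.2 (Or.inl ⟨s(c, d), hcd, rep_off _ hc hd⟩)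
  have hwe : ∀ l : List V, x ∉ l → (∀ e ∈ we l, e ∈ F) → ∀ e ∈ we (l.map some), e ∈ F1 F x y q ρ := by
    intro l hl hF e he
    rw [we_map, List.mem_map] at he
    obtain ⟨e0, he0, rfl⟩ := he
    have h1 : ∀ z ∈ e0, z ≠ x := fun z hz hzx => hl (hzx ▸ mem_we l he0 hz)
    have h2 := hF e0 he0
    induction e0 with
    | _ c d =>
      exact hrep c d h2 (h1 c (Sym2.mem_mk_left c d)) (h1 d (Sym2.mem_mk_right c d))
  refine ⟨hs, ?_⟩
  constructor
  · exact plane_F1 hT hs (crossT_iff T) (crossT_iff T') hndF h.pl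
  · -- nodup
    have h1 : ((none : Option V) :: some y :: (v :: (LA ++ (L1 ++ x :: L2))).map some).Nodup := by
      rw [List.nodup_cons, List.nodup_cons]
      refine ⟨by simp, ?_, ?_⟩
      · intro h2
        obtain ⟨z, hz, h3⟩ := List.mem_map.1 h2
        obtain rfl := Option.some.inj h3
        rw [List.mem_cons, List.mem_append] at hz
        rcases hz with hz | hz | hz
        · exact hyv hz
        · exact hyA (h.sa _ hz)
        · exact hyL hz
      · exact List.Nodup.map (Option.some_injective V) hnd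
    refine (List.Perm.nodup_iff ?_).1 h1
    have e1 : (v :: (LA ++ (L1 ++ x :: L2))).map some =
        (some v :: (LA.map some ++ (L1.map some ++ [some x]))) ++ L2.map some := by simp
    have e2 : some v :: (LA.map some ++ (L1.map some ++ some x :: some y :: none :: L2.map some)) =
        (some v :: (LA.map some ++ (L1.map some ++ [some x]))) ++ ([some y, none] ++ L2.map some) := by simp
    rw [e1, e2]
    have e3 : (none : Option V) :: some y :: ((some v :: (LA.map some ++ (L1.map some ++ [some x]))) ++ L2.map some)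
        = [none, some y] ++ ((some v :: (LA.map some ++ (L1.map some ++ [some x]))) ++ L2.map some) := rfl
    rw [e3]
    exact List.Perm.trans (List.Perm.append_right _ (List.Perm.swap _ _ _)) (List.perm_append_comm_assoc _ _ _)
  · simpa using h.na
  · simp
  · intro a ha
    obtain ⟨a0, ha0, rfl⟩ := List.mem_map.1 ha
    exact mem_image_of_mem _ (h.sa a0 ha0)
  · intro b hb
    rw [List.mem_append, List.mem_cons, List.mem_cons, List.mem_cons] at hb
    rcases hb with hb | rfl | rfl | rfl | hb
    · obtain ⟨b0, hb0, rfl⟩ := List.mem_map.1 hb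
      exact mem_insert_of_mem (mem_image_of_mem _ (h.sb b0 (by simp [hb0])))
    · exact mem_insert_of_mem (mem_image_of_mem _ hxB)
    · exact mem_insert_of_mem (mem_image_of_mem _ hy)
    · exact mem_insert_self _ _
    · obtain ⟨b0, hb0, rfl⟩ := List.mem_map.1 hb
      exact mem_insert_of_mem (mem_image_of_mem _ (h.sb b0 (by simp [hb0])))
  · rw [disjoint_left]
    intro z hz1 hz2
    obtain ⟨a, ha, rfl⟩ := mem_image.1 hz1
    rcases mem_insert.1 hz2 with h1 | h1
    · exact absurd h1 (by simp)
    · obtain ⟨b, hb, h2⟩ := mem_image.1 h1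
      exact disjoint_left.1 h.dj ha (Option.some.inj h2 ▸ hb)
  · intro h1
    obtain ⟨a, ha, h2⟩ := mem_image.1 h1
    exact h.va (Option.some.inj h2 ▸ ha)
  · intro h1
    rcases mem_insert.1 h1 with h2 | h2
    · exact absurd h2 (by simp)
    · obtain ⟨b, hb, h3⟩ := mem_image.1 h2
      exact h.vb (Option.some.inj h3 ▸ hb)
  · -- the left walk
    have e1 : some v :: LA.map some = (v :: LA).map some := rfl
    intro e he
    rw [ce_cons, show some v :: (LA.map some ++ [some v]) = (v :: (LA ++ [v])).map some by simp] at he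
    refine hwe (v :: (LA ++ [v])) ?_ h.ca e he
    intro h1
    rw [List.mem_cons, List.mem_append, List.mem_singleton] at h1
    rcases h1 with h1 | h1 | h1
    · exact hxv h1
    · exact hxA (h.sa _ h1)
    · exact hxv h1
  · -- the right walk
    intro e he
    have e1 : ce (some v :: (L1.map some ++ some x :: some y :: none :: L2.map some)) =
        we ((v :: L1).map some ++ [some x]) ++ (s(some x, some y) :: s(some y, none) ::
          we (none :: (L2 ++ [v]).map some)) := by
      rw [ce_cons]
      have e2 : some v :: (L1.map some ++ some x :: some y :: none :: L2.map some ++ [some v]) =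
          (v :: L1).map some ++ some x :: (some y :: none :: (L2 ++ [v]).map some) := by simp
      rw [e2, we_split]
      rfl
    rw [e1, List.mem_append, List.mem_cons, List.mem_cons] at he
    rcases he with he | rfl | rfl | he
    · -- the part before `x`
      rw [hp, List.map_append, List.map_cons, List.map_nil, List.append_assoc, List.singleton_append,
        we_split, List.mem_append] at he
      rcases he with he | he
      · rw [show R'.map some ++ [some p] = (R' ++ [p]).map some by simp, ← hp] at he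
        refine hwe (v :: L1) hxL1 (fun e he => ?_) e he
        refine h.cb e ?_
        rw [hce, List.mem_append]
        left
        rw [hp, List.append_assoc, List.singleton_append, we_split, List.mem_append]
        left
        rw [← hp]
        exact he
      · rw [we, we, List.mem_singleton] at he
        subst he
        refine mem_F1.2 (Or.inl ⟨s(x, p), hxp, ?_⟩)
        rw [rep_out hpx hSp, Sym2.eq_swap]
    · exact mem_F1.2 (Or.inl ⟨s(x, y), hxy, rep_out hyx hs.sy⟩)
    · exact mem_F1.2 (Or.inr (Or.inl Sym2.eq_swap))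
    · rw [hq, List.map_cons, we, List.mem_cons] at he
      rcases he with rfl | he
      · exact mem_F1.2 (Or.inr (Or.inr rfl))
      · rw [← List.map_cons, ← hq] at he
        refine hwe (L2 ++ [v]) hxL2 (fun e he => ?_) e he
        refine h.cb e ?_
        rw [hce, List.mem_append]
        right
        rw [hq] at he ⊢
        rw [we]
        exact List.mem_cons_of_mem _ he
  · -- no edges between the sides
    intro a' ha' b' hb' hm'
    obtain ⟨a, ha, rfl⟩ := mem_image.1 ha'
    rcases mem_F1.1 hm' with ⟨f, hf, h1⟩ | h1 | h1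
    · have h2 := map_rep x (Sb y q ρ) f
      rw [h1, Sym2.map_mk] at h2
      rw [← h2] at hf
      refine h.no a ha (pr x b') ?_ hf
      rcases mem_insert.1 hb' with rfl | h3
      · exact hxB
      · obtain ⟨b, hb, rfl⟩ := mem_image.1 h3
        exact hb
    · rw [Sym2.eq_iff] at h1
      rcases h1 with ⟨h1, _⟩ | ⟨h1, _⟩
      · exact absurd h1 (by simp)
      · exact hyA (Option.some.inj h1 ▸ ha)
    · rw [Sym2.eq_iff] at h1
      rcases h1 with ⟨h1, _⟩ | ⟨h1, _⟩
      · exact absurd h1 (by simp)
      · exact hqA (Option.some.inj h1 ▸ ha)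
  · -- the ends
    have hin : ∀ c d, c ∈ insert v (A ∪ B) → hd x (Sb y q ρ) c d ∈
        insert (some v) (A.image some ∪ insert none (B.image some)) := by
      intro c d hc
      unfold hd
      split_ifs
      · simp
      · rw [mem_insert, mem_union] at hc
        rw [mem_insert, mem_union, mem_insert]
        rcases hc with rfl | hc | hc
        · exact Or.inl rfl
        · exact Or.inr (Or.inl (mem_image_of_mem _ hc))
        · exact Or.inr (Or.inr (Or.inr (mem_image_of_mem _ hc)))
    intro e he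
    have hdg := nd_F1 (ρ := ρ) (x := x) (y := y) (q := q) hndF e he
    rcases mem_F1.1 he with ⟨f, hf, rfl⟩ | rfl | rfl
    · have h1 := h.sup hf
      induction f with
      | _ c d =>
        rw [rep_mk, Sym2.mk_isDiag_iff] at hdg
        rw [mem_LW] at h1
        rw [rep_mk, mem_LW]
        exact ⟨hin c d h1.1, hin d c h1.2.1, hdg⟩
    · rw [mem_LW]
      refine ⟨by simp, ?_, by simp⟩
      rw [mem_insert, mem_union, mem_insert]
      exact Or.inr (Or.inr (Or.inr (mem_image_of_mem _ hy)))
    · rw [mem_LW]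
      refine ⟨by simp, ?_, by simp⟩
      rw [mem_insert, mem_union, mem_insert]
      rcases hqBv with h1 | rfl
      · exact Or.inr (Or.inr (Or.inr (mem_image_of_mem _ h1)))
      · exact Or.inl rfl
  · -- reachable, left
    intro C' h1 h2 h3
    obtain ⟨C, hC⟩ : ∃ C : Finset V, ∀ a, a ∈ C ↔ a ∈ A ∧ some a ∈ C' :=
      ⟨A.filter fun a => some a ∈ C', fun a => mem_filter⟩
    have h4 : C ≠ A := by
      intro h5
      apply h3
      refine subset_antisymm h2 fun z hz => ?_
      obtain ⟨a, ha, rfl⟩ := mem_image.1 hz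
      exact ((hC a).1 (h5 ▸ ha)).2
    obtain ⟨c, hc, d, hd', hcd⟩ := h.conA C
      (fun a ha => (hC a).2 ⟨h.sa a ha, h1 _ (List.mem_map_of_mem ha)⟩) (fun a ha => ((hC a).1 ha).1) h4
    rw [mem_sdiff] at hd'
    have hcA := ((hC c).1 hc).1
    refine ⟨some c, ((hC c).1 hc).2, some d, ?_, ?_⟩
    · rw [mem_sdiff]
      exact ⟨mem_image_of_mem _ hd'.1, fun h5 => hd'.2 ((hC d).2 ⟨hd'.1, h5⟩)⟩
    · exact hrep c d hcd (fun h5 => hxA (h5 ▸ hcA)) (fun h5 => hxA (h5 ▸ hd'.1))
  · -- reachable, right
    intro C' h1 h2 h3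
    obtain ⟨C, hC⟩ : ∃ C : Finset V, ∀ a, a ∈ C ↔ a ∈ B ∧ some a ∈ C' :=
      ⟨B.filter fun a => some a ∈ C', fun a => mem_filter⟩
    have hnone : none ∈ C' := h1 none (by simp)
    have hxC' : some x ∈ C' := h1 _ (by simp)
    have hxC : x ∈ C := (hC x).2 ⟨hxB, hxC'⟩
    have h4 : C ≠ B := by
      intro h5
      apply h3
      refine subset_antisymm h2 fun z hz => ?_
      rcases mem_insert.1 hz with rfl | hz
      · exact hnone
      · obtain ⟨b, hb, rfl⟩ := mem_image.1 hz
        exact ((hC b).1 (h5 ▸ hb)).2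
    obtain ⟨c, hc, d, hd', hcd⟩ := h.conB C (by
      intro b hb
      refine (hC b).2 ⟨h.sb b hb, h1 _ ?_⟩
      rw [List.mem_append, List.mem_cons] at hb
      rw [List.mem_append, List.mem_cons, List.mem_cons, List.mem_cons]
      rcases hb with hb | rfl | hb
      · exact Or.inl (List.mem_map_of_mem hb)
      · exact Or.inr (Or.inl rfl)
      · exact Or.inr (Or.inr (Or.inr (Or.inr (List.mem_map_of_mem hb))))) (fun a ha => ((hC a).1 ha).1) h4
    rw [mem_sdiff] at hd'
    have hdx : d ≠ x := fun h5 => hd'.2 (h5 ▸ hxC)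
    refine ⟨hd x (Sb y q ρ) c d, ?_, some d, ?_, ?_⟩
    · unfold hd
      split_ifs
      · exact hnone
      · exact ((hC c).1 hc).2
    · rw [mem_sdiff]
      refine ⟨mem_insert_of_mem (mem_image_of_mem _ hd'.1), fun h5 => hd'.2 ((hC d).2 ⟨hd'.1, h5⟩)⟩
    · refine mem_F1.2 (Or.inl ⟨s(c, d), hcd, ?_⟩)
      rw [rep_mk, hd_ne hdx]

end step

end H41F
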