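import Pool.Agent.Lib.H30P.Asm
import Pool.Agent.Lib.H98M.ME

/-!
# H41F, file Tw: the twin of a vertex

`Tw T T' x ρ π`: `T'` is the table `T` with a twin `none` of `x` at the place `π` of the order `ρ` of the
edges at `x`. `rep x S e`: the edge `e` of `T` as an edge of `T'` (the edges `xz` with `S z` start at the
twin). `rep` preserves the crossing relation if no `d` outside `S` is between the twin and an element of `S`.
-/

set_option autoImplicit false
set_option linter.unusedSectionVars false

namespace H41F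

open H53P H30P Finset

variable {V : Type*} [DecidableEq V]

theorem btw_no {a b c : ℝ} (h1 : ¬ (a < c ∧ c < b)) (h2 : ¬ (b < c ∧ c < a)) : H53P.btw a b c = false := by
  unfold H53P.btw
  rw [decide_eq_false h1, decide_eq_false h2]
  rfl

theorem btw_yes1 {a b c : ℝ} (h1 : a < c) (h2 : c < b) : H53P.btw a b c = true := by
  unfold H53P.btw
  rw [decide_eq_true (⟨h1, h2⟩ : a < c ∧ c < b)]
  rfl

theorem btw_yes2 {a b c : ℝ} (h1 : b < c) (h2 : c < a) : H53P.btw a b c = true := by
  unfold H53P.btw
  rw [decide_eq_true (⟨h1, h2⟩ : b < c ∧ c < a), Bool.or_true]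

/-- the table with a twin of `x` -/
structure Tw (T : Table V) (T' : Table (Option V)) (x : V) (ρ : V → ℝ) (π : ℝ) : Prop where
  old : ∀ a b c d, T'.X (some a) (some b) (some c) (some d) = T.X a b c d
  par : ∀ b c d, b ≠ x → c ≠ x → d ≠ x → T'.X none (some b) (some c) (some d) = T.X x b c d
  tiny : ∀ c d, T'.X none (some x) c d = false
  near : ∀ b d, b ≠ x → d ≠ x → b ≠ d → T'.X none (some b) (some x) (some d) = H53P.btw π (ρ b) (ρ d)
  pi : ∀ z, z ≠ x → ρ z ≠ π

/-- the representative of the end `a` of the edge `ab` -/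
def hd (x : V) (S : V → Bool) (a b : V) : Option V := if a = x ∧ S b = true then none else some a

theorem hd_ne {x : V} {S : V → Bool} {a b : V} (h : a ≠ x) : hd x S a b = some a := by
  unfold hd
  rw [if_neg fun h1 => h h1.1]

theorem hd_in {x : V} {S : V → Bool} {b : V} (h : S b = true) : hd x S x b = none := by
  unfold hd
  rw [if_pos ⟨rfl, h⟩]

theorem hd_out {x : V} {S : V → Bool} {b : V} (h : S b = false) : hd x S x b = some x := by
  unfold hd
  rw [if_neg fun h1 => by rw [h] at h1; exact absurd h1.2 (by simp)]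

/-- the edge in the table with the twin -/
def rep (x : V) (S : V → Bool) : Sym2 V → Sym2 (Option V) :=
  Sym2.lift ⟨fun a b => s(hd x S a b, hd x S b a), fun _ _ => Sym2.eq_swap⟩

theorem rep_mk (x : V) (S : V → Bool) (a b : V) : rep x S s(a, b) = s(hd x S a b, hd x S b a) := rfl

theorem rep_off {x : V} (S : V → Bool) {a b : V} (ha : a ≠ x) (hb : b ≠ x) :
    rep x S s(a, b) = s(some a, some b) := by
  rw [rep_mk, hd_ne ha, hd_ne hb]

theorem rep_in {x : V} {S : V → Bool} {b : V} (hb : b ≠ x) (h : S b = true) :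
    rep x S s(x, b) = s(none, some b) := by
  rw [rep_mk, hd_in h, hd_ne hb]

theorem rep_out {x : V} {S : V → Bool} {b : V} (hb : b ≠ x) (h : S b = false) :
    rep x S s(x, b) = s(some x, some b) := by
  rw [rep_mk, hd_out h, hd_ne hb]

/-- the vertex of `T` -/
def pr (x : V) : Option V → V := fun o => o.getD x

theorem pr_hd (x : V) (S : V → Bool) (a b : V) : pr x (hd x S a b) = a := by
  unfold hd pr
  split_ifs with h
  · exact h.1.symm
  · rfl

theorem map_rep (x : V) (S : V → Bool) (e : Sym2 V) : (rep x S e).map (pr x) = e := by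
  induction e with
  | _ a b => rw [rep_mk, Sym2.map_mk, pr_hd, pr_hd]

theorem rep_inj (x : V) (S : V → Bool) : Function.Injective (rep x S) := by
  intro e f h
  rw [← map_rep x S e, h, map_rep]

section

variable {T : Table V} {T' : Table (Option V)} {x : V} {ρ : V → ℝ} {π : ℝ} {S : V → Bool}

/-- no crossings at a common end -/
theorem X_self1 (T : Table V) (a b c : V) : T.X a b a c = false := by
  cases h : T.X a b a c with
  | false => rfl
  | true => exact absurd rfl (T.ne _ _ _ _ h).2.2.1

theorem X_loop (T : Table V) (a b c : V) : T.X a a b c = false := by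
  cases h : T.X a a b c with
  | false => rfl
  | true => exact absurd rfl (T.ne _ _ _ _ h).1

/-- the general formula -/
theorem rep_X (h : Tw T T' x ρ π)
    (hS : ∀ b d, b ≠ x → d ≠ x → b ≠ d → S b = true → S d = false → H53P.btw π (ρ b) (ρ d) = false)
    (a b c d : V) : T'.X (hd x S a b) (hd x S b a) (hd x S c d) (hd x S d c) = T.X a b c d := by
  -- loops and common ends
  by_cases hab : a = b
  · subst hab
    rw [X_loop, X_loop]
  by_cases hcd : c = d
  · subst hcd
    rw [T'.xs4, X_loop, T.xs4, X_loop]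
  -- one edge at `x`
  have key : ∀ b c d, b ≠ x → c ≠ d →
      T'.X (hd x S x b) (some b) (hd x S c d) (hd x S d c) = T.X x b c d := by
    intro b c d hb hcd
    -- both edges at `x`
    have key2 : ∀ d, d ≠ x → T'.X (hd x S x b) (some b) (hd x S x d) (some d) = false := by
      intro d hd'
      by_cases hbd : b = d
      · subst hbd
        exact X_self1 T' _ _ _
      cases h1 : S b <;> cases h2 : S d
      · rw [hd_out h1, hd_out h2, X_self1]
      · rw [hd_out h1, hd_in h2, T'.xs4, h.near d b hd' hb (Ne.symm hbd)]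
        exact hS d b hd' hb (Ne.symm hbd) h2 h1
      · rw [hd_in h1, hd_out h2, h.near b d hb hd' hbd]
        exact hS b d hb hd' hbd h1 h2
      · rw [hd_in h1, hd_in h2, X_self1]
    by_cases hc : c = x
    · subst hc
      rw [hd_ne (Ne.symm hcd), key2 d (Ne.symm hcd), X_self1]
    by_cases hd' : d = x
    · subst hd'
      rw [hd_ne hc, T'.xs2, key2 c hc, T.xs2, X_self1]
    rw [hd_ne hc, hd_ne hd']
    cases h1 : S b
    · rw [hd_out h1, h.old]
    · rw [hd_in h1, h.par b c d hb hc hd']
  by_cases ha : a = x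
  · subst ha
    rw [hd_ne (Ne.symm hab)]
    exact key b c d (Ne.symm hab) hcd
  by_cases hb : b = x
  · subst hb
    rw [hd_ne ha, T'.xs1, T.xs1]
    exact key a c d ha hcd
  by_cases hc : c = x
  · subst hc
    rw [hd_ne ha, hd_ne hb, hd_ne (Ne.symm hcd), T'.xs4, T.xs4]
    have := key d a b (Ne.symm hcd) hab
    rw [hd_ne ha, hd_ne hb] at this
    exact this
  by_cases hd' : d = x
  · subst hd'
    rw [hd_ne ha, hd_ne hb, hd_ne hc, T'.xs4, T'.xs1, T.xs4, T.xs1]
    have := key c a b hc hab
    rw [hd_ne ha, hd_ne hb] at this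
    exact this
  rw [hd_ne ha, hd_ne hb, hd_ne hc, hd_ne hd', h.old]

/-- `rep` preserves the crossing relation -/
theorem rep_cross (h : Tw T T' x ρ π)
    (hI : ∀ b d, b ≠ x → d ≠ x → b ≠ d → S b = true → S d = false → H53P.btw π (ρ b) (ρ d) = false)
    {cross : Sym2 V → Sym2 V → Prop} {cross' : Sym2 (Option V) → Sym2 (Option V) → Prop}
    (hS : ∀ a b c d, cross s(a, b) s(c, d) ↔ T.X a b c d = true)
    (hS' : ∀ a b c d, cross' s(a, b) s(c, d) ↔ T'.X a b c d = true) (e f : Sym2 V) :
    cross' (rep x S e) (rep x S f) ↔ cross e f := by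
  induction e with
  | _ a b =>
    induction f with
    | _ c d => rw [rep_mk, rep_mk, hS, hS', rep_X h hI]

end

end H41F
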