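import Pool.Agent.Lib.H41F.B
import Pool.Agent.Lib.H98V.DT

/-!
# H41F, file Tx: the twin table of helper98 satisfies `Tw`
-/

set_option autoImplicit false
set_option linter.unusedSectionVars false

namespace H41F

open H53P H30P Finset H98V

variable {V : Type} [DecidableEq V]

theorem tw_of {T : Table V} {T' : Table (Option V)} {x : V} {ρ : V → ℝ} {π : ℝ}
    (h : T'.X = twX T.X x ρ π) (hπ : ∀ d, d ≠ x → ρ d ≠ π) : Tw T T' x ρ π where
  old a b c d := by rw [h]; rfl
  par b c d hb hc hd := by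
    rw [h]
    show tw3 T.X x ρ π b c d = _
    unfold tw3
    rw [if_neg hc, if_neg hd]
  tiny c d := by
    rw [h]
    cases c with
    | none => cases d <;> rfl
    | some c =>
      cases d with
      | none => rfl
      | some d =>
        show tw3 T.X x ρ π x c d = _
        unfold tw3 tw1
        split_ifs
        · simp
        · simp
        · exact X_loop _ _ _ _
  near b d hb hd hbd := by
    rw [h]
    show tw3 T.X x ρ π b x d = _
    unfold tw3 tw1
    rw [if_pos rfl, decide_eq_true (⟨hb, hd, hbd⟩ : b ≠ x ∧ d ≠ x ∧ b ≠ d), Bool.true_and]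
  pi := hπ

/-- a free position strictly between two different values -/
theorem exists_pos [Fintype V] {x y q : V} {ρ : V → ℝ} (h : ρ y ≠ ρ q) :
    ∃ π : ℝ, H53P.btw (ρ y) (ρ q) π = true ∧ ∀ d, d ≠ x → ρ d ≠ π := by
  have key : ∀ a b : ℝ, a < b → ∃ π : ℝ, (a < π ∧ π < b) ∧ ∀ d : V, ρ d ≠ π := by
    intro a b hab
    have h1 : (Set.Ioo a b).Infinite := Set.Ioo_infinite hab
    obtain ⟨π, hπ1, hπ2⟩ := h1.exists_notMem_finset (univ.image ρ)
    exact ⟨π, hπ1, fun d hd => hπ2 (mem_image.2 ⟨d, mem_univ _, hd⟩)⟩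
  rcases lt_or_gt_of_ne h with h1 | h1
  · obtain ⟨π, hπ1, hπ2⟩ := key _ _ h1
    exact ⟨π, btw_iff.2 (Or.inl hπ1), fun d _ => hπ2 d⟩
  · obtain ⟨π, hπ1, hπ2⟩ := key _ _ h1
    exact ⟨π, btw_iff.2 (Or.inr hπ1), fun d _ => hπ2 d⟩

end H41F
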