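import Pool.Agent.Lib.H41F.S

/-!
# H41F, file W: all vertices on the two walks

`TwinEx`: twin tables exist. `St2`: two closed walks with chords. `st_acyN`: from `St2` (all tables) to `St`.
-/

set_option autoImplicit false
set_option linter.unusedSectionVars false

namespace H41F

open Finset H53P H98P H98Z H98M H98V H66N

/-- twin tables exist -/
def TwinEx : Prop :=
  ∀ (V : Type) [Fintype V] [DecidableEq V] (T : Table V) (x : V) (ρ : V → ℝ) (π : ℝ), RotAt T x ρ →
    (∀ d, d ≠ x → ρ d ≠ π) → ∃ T' : Table (Option V), T'.X = twX T.X x ρ π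

/-- simple closed walks `v :: LA`, `v :: LB` with chords -/
structure St2 {V : Type} [Fintype V] [DecidableEq V] (cross : Sym2 V → Sym2 V → Prop) (v : V)
    (F : Finset (Sym2 V)) (LA LB : List V) : Prop where
  pl : Plane cross F
  nd : (v :: (LA ++ LB)).Nodup
  na : LA ≠ []
  nb : LB ≠ []
  ca : ∀ e ∈ ce (v :: LA), e ∈ F
  cb : ∀ e ∈ ce (v :: LB), e ∈ F
  no : ∀ a ∈ LA, ∀ b ∈ LB, s(a, b) ∉ F
  sup : F ⊆ LW (insert v (LA.toFinset ∪ LB.toFinset))

/-- the statement for two closed walks with chords, in degree `n`, for all tables -/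
def TwoC (n : ℕ) : Prop :=
  ∀ (V : Type) [Fintype V] [DecidableEq V] (T : Table V) (v : V) (F : Finset (Sym2 V)) (LA LB : List V),
    St2 (crossT T) v F LA LB → AcyN (crossT T) n (Miss (crossT T) (br LA.toFinset LB.toFinset) F)

theorem one_step {n : ℕ} (hX : TwinEx) {V : Type} [Fintype V] [DecidableEq V] {T : Table V} {v : V}
    {A B : Finset V} {F : Finset (Sym2 V)} {LA LB : List V} (h : St T v A B F LA LB)
    (hB : ∃ y ∈ B, y ∉ LB)
    (ih : ∀ (T' : Table (Option V)) (v' : Option V) (A' B' : Finset (Option V)) (F' : Finset (Sym2 (Option V)))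
      (LA' LB' : List (Option V)), (A'.card - LA'.length) + (B'.card - LB'.length) <
        (A.card - LA.length) + (B.card - LB.length) → St T' v' A' B' F' LA' LB' →
      AcyN (crossT T') n (Miss (crossT T') (br A' B') F')) :
    AcyN (crossT T) n (Miss (crossT T) (br A B) F) := by
  have hLB : LB.toFinset ⊆ B := fun b hb => h.sb b (List.mem_toFinset.1 hb)
  have hne : LB.toFinset ≠ B := by
    intro h1
    obtain ⟨y, hy, hyL⟩ := hB
    rw [← h1, List.mem_toFinset] at hy
    exact hyL hy
  obtain ⟨x, hx, y, hy, hxy⟩ := h.conB LB.toFinset (fun b hb => List.mem_toFinset.2 hb) hLB hne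
  rw [List.mem_toFinset] at hx
  rw [mem_sdiff, List.mem_toFinset] at hy
  obtain ⟨hyB, hyL⟩ := hy
  obtain ⟨L1, L2, rfl⟩ := List.append_of_mem hx
  obtain ⟨q, R, hq⟩ : ∃ q R, L2 ++ [v] = q :: R := by
    cases L2 with
    | nil => exact ⟨v, [], rfl⟩
    | cons b L2 => exact ⟨b, L2 ++ [v], rfl⟩
  obtain ⟨R', p, hp⟩ : ∃ R' p, v :: L1 = R' ++ [p] := by
    rcases List.eq_nil_or_concat (v :: L1) with h1 | ⟨R', p, h1⟩
    · exact absurd h1 (by simp)
    · exact ⟨R', p, by rw [h1, List.concat_eq_append]⟩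
  have hndB : (v :: (L1 ++ x :: L2)).Nodup := by
    refine h.nd.sublist ?_
    exact List.Sublist.cons_cons v (List.sublist_append_right _ _)
  have hpm : p ∈ v :: L1 := by rw [hp]; simp
  have hxp : x ≠ p := by
    rintro rfl
    have h2 : (v :: L1 ++ x :: L2).Nodup := hndB
    rw [List.nodup_append] at h2
    exact h2.2.2 x hpm x List.mem_cons_self rfl
  have hyq : y ≠ q := by
    rintro rfl
    have h2 : y ∈ L2 ++ [v] := by rw [hq]; simp
    rw [List.mem_append, List.mem_singleton] at h2
    rcases h2 with h2 | h2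
    · exact hyL (by simp [h2])
    · exact h.vb (h2 ▸ hyB)
  have hyx : y ≠ x := fun h1 => hyL (by rw [h1]; simp)
  have hqx : q ≠ x := by
    rintro rfl
    have h1 : q ∈ L2 ++ [v] := by rw [hq]; simp
    rw [List.mem_append, List.mem_singleton] at h1
    rcases h1 with h1 | h1
    · have h2 : (v :: L1 ++ q :: L2).Nodup := hndB
      rw [List.nodup_append] at h2
      exact (List.nodup_cons.1 h2.2.1).1 h1
    · exact h.vb (h1 ▸ h.sb q (by simp))
  obtain ⟨ρ, hρ, hm⟩ := exists_rotAt T hxp
  have hinj : ∀ a b, a ≠ x → b ≠ x → ρ a = ρ b → a = b := hρ.1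
  obtain ⟨π, hmid, hpi⟩ := exists_pos (x := x) (y := y) (q := q) (ρ := ρ) fun h1 => hyq (hinj y q hyx hqx h1)
  obtain ⟨T', hT'⟩ := hX V T x ρ π hρ hpi
  have hT := tw_of hT' hpi
  obtain ⟨hs, hst⟩ := st_twin h hyB hyL hxy hq hp hinj hm hmid hT
  have hcA : (A.image some).card = A.card := card_image_of_injective _ (Option.some_injective V)
  have hcB : (insert none (B.image some)).card = B.card + 1 := by
    rw [card_insert_of_notMem (by simp), card_image_of_injective _ (Option.some_injective V)]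
  have hle : (L1 ++ x :: L2).length + 1 ≤ B.card := by
    have h1 : (L1 ++ x :: L2).toFinset.card = (L1 ++ x :: L2).length :=
      List.toFinset_card_of_nodup (List.nodup_cons.1 hndB).2
    rw [← h1]
    exact card_lt_card (Finset.ssubset_iff_subset_ne.2 ⟨hLB, hne⟩)
  have hacy := ih T' (some v) _ _ _ _ _ (by
    rw [hcA, hcB]
    simp only [List.length_append, List.length_cons, List.length_map] at hle ⊢
    omega) hst
  have hxB : x ∈ B := h.sb x (by simp)
  have hyA : y ∉ A := fun h1 => disjoint_left.1 h.dj h1 hyB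
  have hqA : q ∉ A := by
    intro h1
    have h2 : q ∈ L2 ++ [v] := by rw [hq]; simp
    rw [List.mem_append, List.mem_singleton] at h2
    rcases h2 with h2 | h2
    · exact disjoint_left.1 h.dj h1 (h.sb q (by simp [h2]))
    · exact h.va (h2 ▸ h1)
  rw [stepb_be hT hs (crossT_iff T) (crossT_iff T') h.dj hxB hyA hqA] at hacy
  exact isoN (rep x (Sb y q ρ)) (fun a _ b _ hab => rep_inj _ _ hab) rfl
    (fun a _ b _ => (rep_cross hT hs.hI (crossT_iff T) (crossT_iff T') a b).symm) hacy

theorem st_acyN {n : ℕ} (hX : TwinEx) (hG : TwoC n) : ∀ (k : ℕ) (V : Type) [Fintype V] [DecidableEq V]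
    (T : Table V) (v : V) (A B : Finset V) (F : Finset (Sym2 V)) (LA LB : List V),
    (A.card - LA.length) + (B.card - LB.length) = k → St T v A B F LA LB →
      AcyN (crossT T) n (Miss (crossT T) (br A B) F) := by
  intro k
  induction k using Nat.strong_induction_on with
  | _ k ih =>
    intro V _ _ T v A B F LA LB hk h
    by_cases hB : ∃ y ∈ B, y ∉ LB
    · exact one_step hX h hB fun T' v' A' B' F' LA' LB' hlt hst => ih _ (hk ▸ hlt) _ T' v' A' B' F' LA' LB' rfl hst
    by_cases hA : ∃ y ∈ A, y ∉ LA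
    · rw [br_swap]
      refine one_step hX h.swap hA fun T' v' A' B' F' LA' LB' hlt hst =>
        ih _ (by omega) _ T' v' A' B' F' LA' LB' rfl hst
    push Not at hA hB
    have e1 : A = LA.toFinset := by
      ext a
      rw [List.mem_toFinset]
      exact ⟨hA a, h.sa a⟩
    have e2 : B = LB.toFinset := by
      ext a
      rw [List.mem_toFinset]
      exact ⟨hB a, h.sb a⟩
    rw [e1, e2]
    refine hG V T v F LA LB ⟨h.pl, h.nd, h.na, h.nb, h.ca, h.cb, ?_, ?_⟩
    · exact fun a ha b hb => h.no a (h.sa a ha) b (h.sb b hb)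
    · rw [← e1, ← e2]
      exact h.sup

end H41F
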